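import Pool.Agent.Helper84K9.SG.Stm

set_option autoImplicit false

/-! Colourings from affine images of a Behrend set. -/

namespace Pool.Agent.Helper44K9.SG

open Finset Pool.Agent.Helper84K9.SG

lemma two_mul_le (n : ℕ) (hn : 1 ≤ n) : 2 * n ≤ 8 ^ n := by
  induction n, hn using Nat.le_induction with
  | base => norm_num
  | succ n hn ih =>
    rw [pow_succ]
    omega

lemma cast_inj {P a b : ℕ} (ha : a < P) (hb : b < P) (h : (a : ZMod P) = (b : ZMod P)) : a = b := by
  have h1 := (ZMod.natCast_eq_natCast_iff' a b P).1 h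
  rwa [Nat.mod_eq_of_lt ha, Nat.mod_eq_of_lt hb] at h1

theorem col : S_BEH → S_WIN → S_COL := by
  intro beh win l n hn hl2 hln hlQ
  classical
  obtain ⟨T0, hT0lt, hT0q, hT0c⟩ := beh n hn
  set Q := 8 ^ (n * (n + 1)) with hQ
  have hQ0 : Q ≠ 0 := by rw [hQ]; positivity
  obtain ⟨P, hPp, hQP, hP2⟩ := Nat.exists_prime_lt_and_le_two_mul Q hQ0
  haveI : Fact P.Prime := ⟨hPp⟩
  obtain ⟨m, hm⟩ := hl2
  obtain ⟨N, hN⟩ : ∃ N, N = 8 * m ^ 4 := ⟨_, rfl⟩
  have hR : l ^ 4 = 2 * N := by rw [hm, hN]; ring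
  have hl6 : l ^ 6 = 2 * l ^ 2 * N := by
    have : l ^ 6 = l ^ 4 * l ^ 2 := by ring
    rw [this, hR]; ring
  have hl0 : 0 < l := by omega
  have hm0 : 0 < m := by omega
  have hN1 : 1 ≤ N := by
    have : 0 < N := by rw [hN]; positivity
    exact this
  have hl2 : 1 ≤ l ^ 2 := Nat.one_le_pow _ _ hl0
  have hl6P : l ^ 6 < P := by omega
  have hNP : N < P := by
    have : N ≤ 2 * l ^ 2 * N := Nat.le_mul_of_pos_left _ (by omega)
    omega
  -- the image of `T0`
  have hT0P : ∀ t ∈ T0, t < P := fun t ht => by have := hT0lt t ht; omega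
  set T : Finset (ZMod P) := T0.image (fun t : ℕ => (t : ZMod P)) with hT
  have hTc : T.card = T0.card := by
    apply card_image_of_injOn
    intro a ha b hb hab
    exact cast_inj (hT0P a ha) (hT0P b hb) hab
  have hTpos : 0 < T.card := by
    rw [hTc]
    rcases Nat.eq_zero_or_pos T0.card with h | h
    · rw [h, mul_zero] at hT0c
      have : 0 < 8 ^ (n * n) := by positivity
      omega
    · exact h
  have hdens : P ≤ 8 ^ (4 * n) * T.card := by
    have e1 : Q = 8 ^ n * 8 ^ (n * n) := by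
      rw [hQ, ← pow_add]; congr 1; ring
    have e2 : 8 ^ (4 * n) = 8 ^ n * (8 ^ n * 8 ^ (2 * n)) := by
      rw [← pow_add, ← pow_add]; congr 1; ring
    have e3 := two_mul_le n hn
    calc P ≤ 2 * Q := hP2
      _ = 2 * 8 ^ n * 8 ^ (n * n) := by rw [e1]; ring
      _ ≤ 2 * 8 ^ n * (n * 8 ^ (2 * n) * T0.card) := Nat.mul_le_mul_left _ hT0c
      _ = (2 * n) * (8 ^ n * 8 ^ (2 * n) * T0.card) := by ring
      _ ≤ 8 ^ n * (8 ^ n * 8 ^ (2 * n) * T0.card) := Nat.mul_le_mul_right _ e3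
      _ = 8 ^ (4 * n) * T.card := by rw [e2, hTc]; ring
  -- the grid of windows
  set W : Finset (ZMod P × ZMod P) := (Icc 1 l).biUnion fun v =>
    ((range (v ^ 2)) ×ˢ (range (l ^ 6 / (v ^ 2 * N) + 2))).image fun cg : ℕ × ℕ =>
      (((cg.1 + v ^ 2 * N * cg.2 : ℕ) : ZMod P), ((v ^ 2 : ℕ) : ZMod P)) with hW
  have hWc : W.card ≤ 4 * l ^ 3 := by
    refine card_biUnion_le.trans ?_
    have h1 : ∀ v ∈ Icc 1 l, (((range (v ^ 2)) ×ˢ (range (l ^ 6 / (v ^ 2 * N) + 2))).image fun cg : ℕ × ℕ =>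
        (((cg.1 + v ^ 2 * N * cg.2 : ℕ) : ZMod P), ((v ^ 2 : ℕ) : ZMod P))).card ≤ 4 * l ^ 2 := by
      intro v hv
      refine card_image_le.trans ?_
      rw [card_product, card_range, card_range, mul_add]
      have h2 : v ^ 2 * (l ^ 6 / (v ^ 2 * N)) ≤ 2 * l ^ 2 := by
        have h3 : l ^ 6 / (v ^ 2 * N) = (l ^ 6 / N) / v ^ 2 := by
          rw [Nat.div_div_eq_div_mul, mul_comm N]
        have h4 : l ^ 6 / N = 2 * l ^ 2 := by
          rw [hl6]; exact Nat.mul_div_cancel _ hN1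
        rw [h3, h4]
        exact Nat.mul_div_le _ _
      have h5 : v ^ 2 ≤ l ^ 2 := Nat.pow_le_pow_left (mem_Icc.1 hv).2 2
      omega
    refine (sum_le_sum h1).trans ?_
    rw [sum_const, Nat.card_Icc, Nat.add_sub_cancel, smul_eq_mul]
    exact le_of_eq (by ring)
  have hW2 : ∀ w ∈ W, w.2 ≠ 0 := by
    intro w hw
    rw [hW, mem_biUnion] at hw
    obtain ⟨v, hv, hw⟩ := hw
    obtain ⟨cg, _, rfl⟩ := mem_image.1 hw
    have hv' := mem_Icc.1 hv
    intro h
    have h1 : P ∣ v ^ 2 := (ZMod.natCast_eq_zero_iff _ _).1 h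
    have h2 : 0 < v ^ 2 := by have := hv'.1; positivity
    have h3 := Nat.le_of_dvd h2 h1
    have h4 : v ^ 2 ≤ l ^ 2 := Nat.pow_le_pow_left hv'.2 2
    have h5 : l ^ 2 ≤ l ^ 6 := Nat.pow_le_pow_right hl0 (by norm_num)
    omega
  have hcond : 8 * W.card * P < N * T.card := by
    have h1 : 2 * (8 * W.card * P) ≤ 64 * 8 ^ (4 * n) * (l ^ 3 * T.card) := by
      calc 2 * (8 * W.card * P) ≤ 2 * (8 * (4 * l ^ 3) * (8 ^ (4 * n) * T.card)) := by gcongr
        _ = _ := by ring
    have h2 : 64 * 8 ^ (4 * n) * (l ^ 3 * T.card) < l * (l ^ 3 * T.card) := by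
      apply Nat.mul_lt_mul_of_pos_right
      · omega
      · positivity
    have h3 : l * (l ^ 3 * T.card) = 2 * (N * T.card) := by
      calc l * (l ^ 3 * T.card) = l ^ 4 * T.card := by ring
        _ = _ := by rw [hR]; ring
    omega
  obtain ⟨α, β, hα, hwin⟩ := win P T N hN1 hNP W hW2 hcond
  set M := 2 * 8 ^ (4 * n) with hM
  have hM0 : 0 < M := by rw [hM]; positivity
  refine ⟨{s | s ≤ l ^ 6 ∧ α * (s : ZMod P) + β ∈ T}, (N + M - 1) / M, ?_, ?_, ?_⟩
  · -- no quadratic progressions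
    intro A B C hC hprog
    choose! s hs hsj using hprog
    have hex : ∀ j, j < 5 → ∃ t ∈ T0, (t : ZMod P) = α * (s j : ZMod P) + β := by
      intro j hj
      obtain ⟨t, ht, htj⟩ := mem_image.1 (hs j hj).2
      exact ⟨t, ht, htj⟩
    choose! t ht htj using hex
    have hQ8 : ∀ j, j < 5 → 8 * t j < P := fun j hj => (hT0lt _ (ht j hj)).trans hQP
    have key : ∀ a b c d : ℕ, a < 5 → b < 5 → c < 5 → d < 5 →
        (s a : ℤ) + 3 * s b = 3 * s c + s d → t a + 3 * t b = 3 * t c + t d := by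
      intro a b c d ha hb hc hd hsum
      have h1 := hQ8 a ha
      have h2 := hQ8 b hb
      have h3 := hQ8 c hc
      have h4 := hQ8 d hd
      apply cast_inj (P := P) (by omega) (by omega)
      push_cast
      rw [htj a ha, htj b hb, htj c hc, htj d hd]
      have h5 : ((s a : ZMod P)) + 3 * s b = 3 * s c + s d := by
        have := congrArg (Int.cast : ℤ → ZMod P) hsum
        push_cast at this
        exact this
      linear_combination α * h5
    have hs' : ∀ j, j < 5 → (s j : ℤ) = A + B * (j : ℤ) + C * (j : ℤ) ^ 2 := hsj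
    have e0 := hs' 0 (by norm_num)
    have e1 := hs' 1 (by norm_num)
    have e2 := hs' 2 (by norm_num)
    have e3 := hs' 3 (by norm_num)
    have e4 := hs' 4 (by norm_num)
    push_cast at e0 e1 e2 e3 e4
    have q1 := key 3 1 2 0 (by norm_num) (by norm_num) (by norm_num) (by norm_num) (by rw [e0, e1, e2, e3]; ring)
    have q2 := key 4 2 3 1 (by norm_num) (by norm_num) (by norm_num) (by norm_num) (by rw [e1, e2, e3, e4]; ring)
    have hall := hT0q t ht q1 q2
    have hseq : ∀ j, j < 5 → s j = s 0 := by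
      intro j hj
      have h1 : (t j : ZMod P) = t 0 := by rw [hall j hj]
      rw [htj j hj, htj 0 (by norm_num)] at h1
      have h2 : (s j : ZMod P) = (s 0 : ZMod P) := mul_left_cancel₀ hα (add_right_cancel h1)
      have h3 := (hs j hj).1
      have h4 := (hs 0 (by norm_num)).1
      exact cast_inj (by omega) (by omega) h2
    have f1 := hseq 1 (by norm_num)
    have f2 := hseq 2 (by norm_num)
    have g1 : (s 1 : ℤ) = s 0 := by exact_mod_cast f1
    have g2 : (s 2 : ℤ) = s 0 := by exact_mod_cast f2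
    rw [e1, e0] at g1
    rw [e2, e0] at g2
    nlinarith
  · -- the windows
    intro a v hv hav D hD
    have hav' : a + v ^ 2 * l ^ 4 ≤ l ^ 6 := by
      have : l ^ 4 * l ^ 2 = l ^ 6 := by ring
      omega
    have hvl : v ≤ l := by
      by_contra hcon
      push Not at hcon
      have h1 : (l + 1) ^ 2 ≤ v ^ 2 := Nat.pow_le_pow_left hcon 2
      have h2 : (l + 1) ^ 2 * l ^ 4 ≤ l ^ 6 := by
        calc (l + 1) ^ 2 * l ^ 4 ≤ v ^ 2 * l ^ 4 := Nat.mul_le_mul_right _ h1
          _ ≤ l ^ 6 := by omega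
      have h3 : l ^ 6 < (l + 1) ^ 2 * l ^ 4 := by
        have : l ^ 6 = l ^ 2 * l ^ 4 := by ring
        rw [this]
        apply Nat.mul_lt_mul_of_pos_right
        · nlinarith
        · positivity
      omega
    have hv2 : 0 < v ^ 2 := by positivity
    obtain ⟨q, hq⟩ : ∃ q, q = a / v ^ 2 := ⟨_, rfl⟩
    obtain ⟨c, hc⟩ : ∃ c, c = a % v ^ 2 := ⟨_, rfl⟩
    have haq : v ^ 2 * q + c = a := by rw [hq, hc]; exact Nat.div_add_mod a (v ^ 2)
    obtain ⟨g, hg⟩ : ∃ g, g = (q + N - 1) / N := ⟨_, rfl⟩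
    have hg1 : N * g ≤ q + N - 1 := by rw [hg]; exact Nat.mul_div_le _ _
    have hg2 : q ≤ N * g := by
      have := Nat.lt_mul_div_succ (q + N - 1) hN1
      rw [← hg] at this
      have h5 : N * (g + 1) = N * g + N := by ring
      omega
    have hgr : g < l ^ 6 / (v ^ 2 * N) + 2 := by
      have h1 : g ≤ q / N + 1 := by
        calc g ≤ (q + N) / N := by rw [hg]; exact Nat.div_le_div_right (by omega)
          _ = q / N + 1 := Nat.add_div_right _ hN1
      have h2 : q / N ≤ l ^ 6 / (v ^ 2 * N) := by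
        rw [hq, Nat.div_div_eq_div_mul]
        exact Nat.div_le_div_right ((Nat.le_add_right _ _).trans hav')
      omega
    have hwW : (((c + v ^ 2 * N * g : ℕ) : ZMod P), ((v ^ 2 : ℕ) : ZMod P)) ∈ W := by
      rw [hW, mem_biUnion]
      refine ⟨v, mem_Icc.2 ⟨hv, hvl⟩, mem_image.2 ⟨(c, g), mem_product.2 ⟨?_, ?_⟩, rfl⟩⟩
      · rw [mem_range, hc]; exact Nat.mod_lt _ hv2
      · exact mem_range.2 hgr
    have h1 := hwin _ hwW
    simp only at h1
    set X := (Icc 1 N).filter (fun t : ℕ => α * (((c + v ^ 2 * N * g : ℕ) : ZMod P) +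
      ((v ^ 2 : ℕ) : ZMod P) * (t : ZMod P)) + β ∈ T) with hX
    have h2 : N ≤ M * X.card := by
      have h3 : N * T.card ≤ M * X.card * T.card := by
        calc N * T.card ≤ 2 * P * X.card := h1
          _ ≤ 2 * (8 ^ (4 * n) * T.card) * X.card := by gcongr
          _ = M * X.card * T.card := by rw [hM]; ring
      exact Nat.le_of_mul_le_mul_right h3 hTpos
    have h3 : (N + M - 1) / M ≤ X.card := by
      have : (N + M - 1) / M < X.card + 1 := by
        apply Nat.div_lt_of_lt_mul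
        have h5 : M * (X.card + 1) = M * X.card + M := by ring
        omega
      omega
    refine h3.trans ?_
    refine card_le_card_of_injOn (fun t => N * g - q + t) ?_ ?_
    · intro t ht
      have ht' := mem_filter.1 (mem_coe.1 ht)
      have ht1 := mem_Icc.1 ht'.1
      have hup : N * g - q + t ≤ l ^ 4 := by
        have h7 : N * g - q ≤ N - 1 := by omega
        omega
      have hlo : 1 ≤ N * g - q + t := ht1.1.trans (Nat.le_add_left _ _)
      refine mem_coe.2 (hD _ (mem_Icc.2 ⟨hlo, hup⟩) ?_)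
      have e1 : a + v ^ 2 * (N * g - q + t) = c + v ^ 2 * N * g + v ^ 2 * t := by
        obtain ⟨e, he⟩ := Nat.exists_eq_add_of_le hg2
        have e2 : v ^ 2 * N * g = v ^ 2 * (N * g) := by ring
        rw [e2, he, Nat.add_sub_cancel_left, ← haq]
        ring
      refine ⟨?_, ?_⟩
      · have h6 : N * g - q + t ≤ l ^ 4 := hup
        calc a + v ^ 2 * (N * g - q + t) ≤ a + v ^ 2 * l ^ 4 := by gcongr
          _ ≤ l ^ 6 := hav'
      · have h7 := ht'.2
        show α * ((a + v ^ 2 * (N * g - q + t) : ℕ) : ZMod P) + β ∈ T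
        rw [e1, Nat.cast_add (c + v ^ 2 * N * g), Nat.cast_mul (v ^ 2) t]
        exact h7
    · intro t _ t' _ htt
      simp only at htt
      omega
  · -- the size of `h`
    rw [hR]
    have h1 : N ≤ M * ((N + M - 1) / M) := by
      have := Nat.lt_mul_div_succ (N + M - 1) hM0
      have h5 : M * ((N + M - 1) / M + 1) = M * ((N + M - 1) / M) + M := by ring
      omega
    calc 2 * N ≤ 2 * (M * ((N + M - 1) / M)) := Nat.mul_le_mul_left _ h1
      _ = 4 * 8 ^ (4 * n) * ((N + M - 1) / M) := by rw [hM]; ring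

end Pool.Agent.Helper44K9.SG
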